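import Pool.Agent.Y859.SF.Stm

set_option autoImplicit false

open Finset Pool.Agent.Y859.SF

namespace Pool.Agent.Y361.SF

/-- the shifted product -/
noncomputable def ff (k : ℕ) (x : ℝ) : ℝ := ∏ i ∈ range k, (x + (((k : ℝ) - 1) / 2 - i))

theorem ff_sq (k : ℕ) (x : ℝ) :
    ff k x ^ 2 = ∏ i ∈ range k, (x ^ 2 - (((k : ℝ) - 1) / 2 - i) ^ 2) := by
  have h : ff k x = ∏ i ∈ range k, (x - (((k : ℝ) - 1) / 2 - i)) := by
    unfold ff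
    rw [← Finset.prod_range_reflect]
    refine Finset.prod_congr rfl fun i hi => ?_
    have hi' : i < k := Finset.mem_range.mp hi
    have : ((k - 1 - i : ℕ) : ℝ) = (k : ℝ) - 1 - i := by
      have h1 : k - 1 - i + (1 + i) = k := by omega
      have h2 : ((k - 1 - i + (1 + i) : ℕ) : ℝ) = k := by rw [h1]
      push_cast at h2
      push_cast
      linarith
    rw [this]
    ring
  have h2 : ff k x ^ 2 = ff k x * ∏ i ∈ range k, (x - (((k : ℝ) - 1) / 2 - i)) := by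
    rw [← h]; ring
  rw [h2]
  unfold ff
  rw [← Finset.prod_mul_distrib]
  exact Finset.prod_congr rfl fun i _ => by ring

theorem desc_eq (k m : ℕ) (h : k ≤ m) :
    (m.descFactorial k : ℝ) = ff k ((m : ℝ) - ((k : ℝ) - 1) / 2) := by
  rw [Nat.descFactorial_eq_prod_range]
  unfold ff
  push_cast
  refine Finset.prod_congr rfl fun i hi => ?_
  have hi' : i < k := Finset.mem_range.mp hi
  rw [Nat.cast_sub (by omega)]
  ring

theorem e_sq_le {k i : ℕ} (hi : i < k) :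
    ((((k : ℝ) - 1) / 2 - i) ^ 2 : ℝ) ≤ (((k : ℝ) - 1) / 2) ^ 2 := by
  have h1 : (i : ℝ) ≤ (k : ℝ) - 1 := by
    have : ((i + 1 : ℕ) : ℝ) ≤ k := by exact_mod_cast hi
    push_cast at this
    linarith
  have h0 : (0 : ℝ) ≤ i := Nat.cast_nonneg i
  nlinarith

theorem ff_sq_le (k : ℕ) (x : ℝ) (hx : ((k : ℝ) - 1) / 2 ≤ x) (hk : 1 ≤ k) :
    ff k x ^ 2 ≤ (x ^ 2) ^ k := by
  have hc : (0 : ℝ) ≤ ((k : ℝ) - 1) / 2 := by
    have : (1 : ℝ) ≤ k := by exact_mod_cast hk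
    linarith
  rw [ff_sq]
  calc ∏ i ∈ range k, (x ^ 2 - (((k : ℝ) - 1) / 2 - i) ^ 2) ≤ ∏ _i ∈ range k, x ^ 2 := by
        refine Finset.prod_le_prod (fun i hi => ?_) (fun i hi => ?_)
        · have := e_sq_le (Finset.mem_range.mp hi)
          nlinarith
        · nlinarith [sq_nonneg (((k : ℝ) - 1) / 2 - i)]
    _ = (x ^ 2) ^ k := by rw [Finset.prod_const, Finset.card_range]

theorem le_ff_sq (k : ℕ) (x : ℝ) (hx : ((k : ℝ) - 1) / 2 ≤ x) (hk : 1 ≤ k) :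
    (x ^ 2 - (((k : ℝ) - 1) / 2) ^ 2) ^ k ≤ ff k x ^ 2 := by
  have hc : (0 : ℝ) ≤ ((k : ℝ) - 1) / 2 := by
    have : (1 : ℝ) ≤ k := by exact_mod_cast hk
    linarith
  rw [ff_sq]
  calc (x ^ 2 - (((k : ℝ) - 1) / 2) ^ 2) ^ k
      = ∏ _i ∈ range k, (x ^ 2 - (((k : ℝ) - 1) / 2) ^ 2) := by
        rw [Finset.prod_const, Finset.card_range]
    _ ≤ ∏ i ∈ range k, (x ^ 2 - (((k : ℝ) - 1) / 2 - i) ^ 2) := by
        refine Finset.prod_le_prod (fun i hi => ?_) (fun i hi => ?_)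
        · nlinarith
        · have := e_sq_le (Finset.mem_range.mp hi)
          linarith

/-- the curve is close to the line `Y = ρ X` -/
theorem close {k : ℕ} (hk : 2 ≤ k) {ρ X Y : ℝ} (hρ : 0 < ρ) (hρ1 : ρ < 1)
    (hX : ((k : ℝ) - 1) / 2 ≤ X) (hY : ((k : ℝ) - 1) / 2 ≤ Y) (h : ff k Y = ρ ^ k * ff k X) :
    |Y - ρ * X| * (ρ * X) ≤ (((k : ℝ) - 1) / 2) ^ 2 := by
  have hk' : (2 : ℝ) ≤ k := by exact_mod_cast hk
  have hc : (0 : ℝ) < ((k : ℝ) - 1) / 2 := by linarith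
  have hX0 : 0 < X := lt_of_lt_of_le hc hX
  have hY0 : 0 < Y := lt_of_lt_of_le hc hY
  have hk0 : k ≠ 0 := by omega
  have h2 : ff k Y ^ 2 = (ρ ^ 2) ^ k * ff k X ^ 2 := by
    rw [h, mul_pow, ← pow_mul, ← pow_mul, mul_comm k 2]
  -- upper
  have hU : Y ^ 2 - (((k : ℝ) - 1) / 2) ^ 2 ≤ ρ ^ 2 * X ^ 2 := by
    have h3 : (Y ^ 2 - (((k : ℝ) - 1) / 2) ^ 2) ^ k ≤ (ρ ^ 2 * X ^ 2) ^ k := by
      calc (Y ^ 2 - (((k : ℝ) - 1) / 2) ^ 2) ^ k ≤ ff k Y ^ 2 := le_ff_sq k Y hY (by omega)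
        _ = (ρ ^ 2) ^ k * ff k X ^ 2 := h2
        _ ≤ (ρ ^ 2) ^ k * (X ^ 2) ^ k :=
            mul_le_mul_of_nonneg_left (ff_sq_le k X hX (by omega)) (by positivity)
        _ = (ρ ^ 2 * X ^ 2) ^ k := by rw [mul_pow]
    exact le_of_pow_le_pow_left₀ hk0 (by positivity) h3
  have hL : ρ ^ 2 * (X ^ 2 - (((k : ℝ) - 1) / 2) ^ 2) ≤ Y ^ 2 := by
    have h3 : (ρ ^ 2 * (X ^ 2 - (((k : ℝ) - 1) / 2) ^ 2)) ^ k ≤ (Y ^ 2) ^ k := by
      calc (ρ ^ 2 * (X ^ 2 - (((k : ℝ) - 1) / 2) ^ 2)) ^ k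
          = (ρ ^ 2) ^ k * (X ^ 2 - (((k : ℝ) - 1) / 2) ^ 2) ^ k := by rw [mul_pow]
        _ ≤ (ρ ^ 2) ^ k * ff k X ^ 2 :=
            mul_le_mul_of_nonneg_left (le_ff_sq k X hX (by omega)) (by positivity)
        _ = ff k Y ^ 2 := h2.symm
        _ ≤ (Y ^ 2) ^ k := ff_sq_le k Y hY (by omega)
    exact le_of_pow_le_pow_left₀ hk0 (by positivity) h3
  have hρ2 : ρ ^ 2 ≤ 1 := by nlinarith
  have hc2 : 0 ≤ (((k : ℝ) - 1) / 2) ^ 2 := sq_nonneg _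
  have hL' : ρ ^ 2 * X ^ 2 - (((k : ℝ) - 1) / 2) ^ 2 ≤ Y ^ 2 := by nlinarith
  have hρX : 0 < ρ * X := mul_pos hρ hX0
  rcases abs_cases (Y - ρ * X) with ⟨h5, h6⟩ | ⟨h5, h6⟩
  · rw [h5]; nlinarith
  · rw [h5]; nlinarith

/-- integers different from `x` stay away from `x` -/
theorem away (x : ℝ) : ∃ δ : ℝ, 0 < δ ∧ ∀ e : ℤ, (e : ℝ) ≠ x → δ ≤ |(e : ℝ) - x| := by
  by_cases hx : ∃ z : ℤ, (z : ℝ) = x
  · obtain ⟨z, rfl⟩ := hx
    refine ⟨1, one_pos, fun e he => ?_⟩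
    have h1 : e - z ≠ 0 := by
      intro h
      apply he
      have : e = z := by omega
      rw [this]
    have h2 : (1 : ℤ) ≤ |e - z| := Int.one_le_abs h1
    have h3 : ((1 : ℤ) : ℝ) ≤ ((|e - z| : ℤ) : ℝ) := by exact_mod_cast h2
    push_cast at h3
    exact h3
  · refine ⟨|x - round x|, ?_, fun e _ => ?_⟩
    · apply abs_pos.mpr
      intro h
      exact hx ⟨round x, by linarith⟩
    · have := round_le x e
      rwa [abs_sub_comm (e : ℝ) x]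

theorem away_all (ρ : ℝ) (D : ℕ) : ∃ δ : ℝ, 0 < δ ∧ ∀ d : ℕ, d ≤ D → ∀ e : ℤ,
    (e : ℝ) ≠ ρ * d → δ ≤ |(e : ℝ) - ρ * d| := by
  induction D with
  | zero =>
    obtain ⟨δ, h1, h2⟩ := away (ρ * (0 : ℕ))
    refine ⟨δ, h1, fun d hd e he => ?_⟩
    obtain rfl : d = 0 := by omega
    exact h2 e he
  | succ D ih =>
    obtain ⟨δ, h1, h2⟩ := away (ρ * ((D + 1 : ℕ) : ℝ))
    obtain ⟨δ', h1', h2'⟩ := ih
    refine ⟨min δ δ', lt_min h1 h1', fun d hd e he => ?_⟩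
    rcases Nat.lt_or_ge D d with h | h
    · obtain rfl : d = D + 1 := by omega
      exact (min_le_left _ _).trans (h2 e he)
    · exact (min_le_right _ _).trans (h2' d h e he)

/-- on the line `Y = ρ X` there is no solution -/
theorem no_line {k : ℕ} (hk : 2 ≤ k) {ρ X : ℝ} (hρ : 0 < ρ) (hρ1 : ρ < 1)
    (hX : ((k : ℝ) - 1) / 2 < ρ * X) : ff k (ρ * X) ≠ ρ ^ k * ff k X := by
  intro h
  have hk' : (2 : ℝ) ≤ k := by exact_mod_cast hk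
  have hc : (0 : ℝ) < ((k : ℝ) - 1) / 2 := by linarith
  have h2 : ff k (ρ * X) ^ 2 = (ρ ^ 2) ^ k * ff k X ^ 2 := by
    rw [h, mul_pow, ← pow_mul, ← pow_mul, mul_comm k 2]
  have h3 : (ρ ^ 2) ^ k * ff k X ^ 2 =
      ∏ i ∈ range k, (ρ ^ 2 * (X ^ 2 - (((k : ℝ) - 1) / 2 - i) ^ 2)) := by
    rw [ff_sq, Finset.prod_mul_distrib, Finset.prod_const, Finset.card_range]
  rw [h3, ff_sq] at h2
  have hρ2 : ρ ^ 2 < 1 := by nlinarith
  have hsq : (((k : ℝ) - 1) / 2) ^ 2 < (ρ * X) ^ 2 := by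
    apply pow_lt_pow_left₀ hX hc.le (by norm_num)
  refine absurd h2 (ne_of_lt ?_)
  apply Finset.prod_lt_prod
  · intro i hi
    have := e_sq_le (Finset.mem_range.mp hi)
    linarith
  · intro i hi
    have := sq_nonneg (((k : ℝ) - 1) / 2 - i)
    nlinarith
  · refine ⟨0, Finset.mem_range.mpr (by omega), ?_⟩
    have : 0 < (((k : ℝ) - 1) / 2 - ((0 : ℕ) : ℝ)) ^ 2 := by
      rw [Nat.cast_zero, sub_zero]; positivity
    nlinarith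

/-- the relation in terms of the shifted products -/
theorem rel {k α β m y : ℕ} (hk : 2 ≤ k) (hβ : 1 ≤ β) (hαβ : β < α) (hy : k ≤ y) (hym : y < m)
    (h : α ^ 2 * y.descFactorial k = β ^ 2 * m.descFactorial k) {ρ : ℝ}
    (hρ : ρ ^ k = ((β : ℝ) / α) ^ 2) :
    ff k ((y : ℝ) - ((k : ℝ) - 1) / 2) = ρ ^ k * ff k ((m : ℝ) - ((k : ℝ) - 1) / 2) := by
  rw [← desc_eq k y hy, ← desc_eq k m (by omega), hρ]
  have h1 : (α : ℝ) ^ 2 * y.descFactorial k = (β : ℝ) ^ 2 * m.descFactorial k := by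
    exact_mod_cast h
  have hα : (0 : ℝ) < α := by
    have : 0 < α := by omega
    exact_mod_cast this
  field_simp
  linarith

/-- solutions are close to the line -/
theorem near {k α β : ℕ} (hk : 2 ≤ k) (hβ : 1 ≤ β) (hαβ : β < α) {ρ : ℝ} (hρ0 : 0 < ρ)
    (hρ1 : ρ < 1) (hρ : ρ ^ k = ((β : ℝ) / α) ^ 2) (η : ℝ) (hη : 0 < η) : ∃ N₀ : ℕ, ∀ N : ℕ,
      N₀ ≤ N → ∀ m y : ℕ, N < m → k ≤ y → y < m →
      α ^ 2 * y.descFactorial k = β ^ 2 * m.descFactorial k →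
      |((y : ℝ) - ((k : ℝ) - 1) / 2) - ρ * ((m : ℝ) - ((k : ℝ) - 1) / 2)| < η ∧
        ((k : ℝ) - 1) / 2 < ρ * ((m : ℝ) - ((k : ℝ) - 1) / 2) := by
  have hk' : (2 : ℝ) ≤ k := by exact_mod_cast hk
  obtain ⟨c, hc⟩ : ∃ c : ℝ, c = ((k : ℝ) - 1) / 2 := ⟨_, rfl⟩
  have hc0 : 0 < c := by rw [hc]; linarith
  obtain ⟨N₀, hN₀⟩ := exists_nat_gt (c + c / ρ + c ^ 2 / (ρ * η))
  refine ⟨N₀, fun N hN m y hm hy hym h => ?_⟩
  have hr := rel hk hβ hαβ hy hym h hρ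
  rw [← hc] at hr ⊢
  have hmN : (N : ℝ) < m := by exact_mod_cast hm
  have hNN : (N₀ : ℝ) ≤ N := by exact_mod_cast hN
  have hd1 : 0 < c / ρ := div_pos hc0 hρ0
  have hd2 : 0 < c ^ 2 / (ρ * η) := by positivity
  have hX1 : c / ρ < (m : ℝ) - c := by linarith
  have hX2 : c ^ 2 / (ρ * η) < (m : ℝ) - c := by linarith
  have hX0 : 0 < (m : ℝ) - c := by linarith
  have hρX : c < ρ * ((m : ℝ) - c) := by
    rw [div_lt_iff₀ hρ0] at hX1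
    linarith
  have hXc : c ≤ (m : ℝ) - c := by nlinarith
  have hYc : c ≤ (y : ℝ) - c := by
    have : (k : ℝ) ≤ y := by exact_mod_cast hy
    rw [hc]
    linarith
  have hcl := close hk hρ0 hρ1 (X := (m : ℝ) - c) (Y := (y : ℝ) - c) (by rw [← hc]; exact hXc)
    (by rw [← hc]; exact hYc) hr
  rw [← hc] at hcl
  refine ⟨?_, hρX⟩
  rw [div_lt_iff₀ (by positivity)] at hX2
  have hpos : 0 < ρ * ((m : ℝ) - c) := by positivity
  by_contra hcon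
  push Not at hcon
  nlinarith

/-- the gaps between solutions are long -/
theorem gap {k α β : ℕ} (hk : 2 ≤ k) (hβ : 1 ≤ β) (hαβ : β < α) (D : ℕ) : ∃ N₀ : ℕ, ∀ N : ℕ,
    N₀ ≤ N → ∀ m₁ m₂ y₁ y₂ : ℕ, N < m₁ → m₁ < m₂ → k ≤ y₁ → y₁ < m₁ → k ≤ y₂ → y₂ < m₂ →
      α ^ 2 * y₁.descFactorial k = β ^ 2 * m₁.descFactorial k →
      α ^ 2 * y₂.descFactorial k = β ^ 2 * m₂.descFactorial k → D < m₂ - m₁ := by
  have hk' : (2 : ℝ) ≤ k := by exact_mod_cast hk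
  have hα0 : (0 : ℝ) < α := by
    have : 0 < α := by omega
    exact_mod_cast this
  have hβ0 : (0 : ℝ) < β := by exact_mod_cast hβ
  have hq0 : 0 < (β : ℝ) / α := div_pos hβ0 hα0
  have hq1 : (β : ℝ) / α < 1 := by
    rw [div_lt_one hα0]
    exact_mod_cast hαβ
  obtain ⟨ρ, hρdef⟩ : ∃ ρ : ℝ, ρ = ((β : ℝ) / α) ^ ((2 : ℝ) / k) := ⟨_, rfl⟩
  have hρ0 : 0 < ρ := by rw [hρdef]; exact Real.rpow_pos_of_pos hq0 _
  have hρ1 : ρ < 1 := by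
    rw [hρdef]
    exact Real.rpow_lt_one hq0.le hq1 (by positivity)
  have hρ : ρ ^ k = ((β : ℝ) / α) ^ 2 := by
    rw [hρdef, ← Real.rpow_natCast, ← Real.rpow_mul hq0.le,
      div_mul_cancel₀ _ (by positivity : (k : ℝ) ≠ 0)]
    exact_mod_cast Real.rpow_natCast ((β : ℝ) / α) 2
  obtain ⟨δ, hδ, hδ'⟩ := away_all ρ D
  obtain ⟨η, hη⟩ : ∃ η : ℝ, η = min (δ / 2) (1 / (2 * ((D : ℝ) + 1))) := ⟨_, rfl⟩
  have hη0 : 0 < η := by rw [hη]; exact lt_min (by linarith) (by positivity)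
  obtain ⟨N₀, hN₀⟩ := near hk hβ hαβ hρ0 hρ1 hρ η hη0
  refine ⟨N₀, fun N hN m₁ m₂ y₁ y₂ hm hmm hy1 hym1 hy2 hym2 h1 h2 => ?_⟩
  by_contra hcon
  push Not at hcon
  obtain ⟨hn1, hs1⟩ := hN₀ N hN m₁ y₁ hm hy1 hym1 h1
  obtain ⟨hn2, -⟩ := hN₀ N hN m₂ y₂ (by omega) hy2 hym2 h2
  have hr1 := rel hk hβ hαβ hy1 hym1 h1 hρ
  obtain ⟨d, hd⟩ : ∃ d : ℕ, d = m₂ - m₁ := ⟨_, rfl⟩
  rw [← hd] at hcon
  have hd0 : 0 < d := by omega
  have hdR : (d : ℝ) = (m₂ : ℝ) - m₁ := by rw [hd, Nat.cast_sub hmm.le]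
  obtain ⟨e, he⟩ : ∃ e : ℤ, e = (y₂ : ℤ) - y₁ := ⟨_, rfl⟩
  have heR : (e : ℝ) = (y₂ : ℝ) - y₁ := by rw [he]; push_cast; ring
  have hη1 : η ≤ δ / 2 := by rw [hη]; exact min_le_left _ _
  have hη2 : η ≤ 1 / (2 * ((D : ℝ) + 1)) := by rw [hη]; exact min_le_right _ _
  have hed : (e : ℝ) = ρ * d := by
    by_contra hne
    have h3 := hδ' d hcon e hne
    have h4 : (e : ℝ) - ρ * d =
        (((y₂ : ℝ) - ((k : ℝ) - 1) / 2) - ρ * ((m₂ : ℝ) - ((k : ℝ) - 1) / 2)) -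
        (((y₁ : ℝ) - ((k : ℝ) - 1) / 2) - ρ * ((m₁ : ℝ) - ((k : ℝ) - 1) / 2)) := by
      rw [heR, hdR]; ring
    rw [h4] at h3
    have h5 := abs_sub (((y₂ : ℝ) - ((k : ℝ) - 1) / 2) - ρ * ((m₂ : ℝ) - ((k : ℝ) - 1) / 2))
      (((y₁ : ℝ) - ((k : ℝ) - 1) / 2) - ρ * ((m₁ : ℝ) - ((k : ℝ) - 1) / 2))
    linarith
  obtain ⟨I, hI⟩ : ∃ I : ℤ, I = d * (2 * y₁ - (k - 1)) - e * (2 * m₁ - (k - 1)) := ⟨_, rfl⟩
  have hIR : (I : ℝ) = 2 * d *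
      (((y₁ : ℝ) - ((k : ℝ) - 1) / 2) - ρ * ((m₁ : ℝ) - ((k : ℝ) - 1) / 2)) := by
    rw [hI]
    push_cast
    rw [hed]
    ring
  have hdD : (d : ℝ) ≤ D := by exact_mod_cast hcon
  have hdp : (0 : ℝ) < d := by exact_mod_cast hd0
  have hIlt : |(I : ℝ)| < 1 := by
    rw [hIR, abs_mul, abs_of_pos (by positivity : (0 : ℝ) < 2 * d)]
    have hDp : (0 : ℝ) < 2 * ((D : ℝ) + 1) := by positivity
    have h6 : η * (2 * ((D : ℝ) + 1)) ≤ 1 := by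
      rw [le_div_iff₀ hDp] at hη2
      exact hη2
    calc 2 * (d : ℝ) * |((y₁ : ℝ) - ((k : ℝ) - 1) / 2) - ρ * ((m₁ : ℝ) - ((k : ℝ) - 1) / 2)|
        ≤ 2 * (d : ℝ) * η := mul_le_mul_of_nonneg_left hn1.le (by positivity)
      _ < 1 := by nlinarith
  have hI0 : I = 0 := by
    have : |I| < 1 := by exact_mod_cast hIlt
    exact Int.abs_lt_one_iff.mp this
  rw [hI0] at hIR
  have hline : ((y₁ : ℝ) - ((k : ℝ) - 1) / 2) = ρ * ((m₁ : ℝ) - ((k : ℝ) - 1) / 2) := by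
    have h7 : 2 * (d : ℝ) *
      (((y₁ : ℝ) - ((k : ℝ) - 1) / 2) - ρ * ((m₁ : ℝ) - ((k : ℝ) - 1) / 2)) = 0 := by
      rw [← hIR]; norm_num
    rcases mul_eq_zero.mp h7 with h8 | h8
    · exact absurd h8 (by positivity)
    · linarith
  rw [hline] at hr1
  exact no_line hk hρ0 hρ1 hs1 hr1

theorem t_PELL : S_PELL := by
  intro k α β ε hk hβ hαβ hε
  classical
  obtain ⟨D, hD⟩ := exists_nat_gt (2 / ε)
  obtain ⟨N₁, hN₁⟩ := gap hk hβ hαβ D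
  obtain ⟨N₂, hN₂⟩ := exists_nat_gt (4 / ε)
  refine ⟨max N₁ N₂, fun N hN => ?_⟩
  have hNa : N₁ ≤ N := (le_max_left _ _).trans hN
  have hNb : N₂ ≤ N := (le_max_right _ _).trans hN
  obtain ⟨S, hS⟩ : ∃ S : ℕ → Prop, S = fun m => ∃ y : ℕ, k ≤ y ∧ y < m ∧
    α ^ 2 * y.descFactorial k = β ^ 2 * m.descFactorial k := ⟨_, rfl⟩
  rw [← hS]
  refine ⟨(Ioc N (2 * N)).filter S, ?_, fun m h1 h2 h3 =>
    Finset.mem_filter.mpr ⟨Finset.mem_Ioc.mpr ⟨h1, h2⟩, h3⟩⟩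
  have hcard : ((Ioc N (2 * N)).filter S).card ≤ (Icc (N / (D + 1)) (2 * N / (D + 1))).card := by
    refine Finset.card_le_card_of_injOn (fun m => m / (D + 1)) (fun m hm => ?_) ?_
    · have hm' := Finset.mem_filter.mp hm
      have hm2 := Finset.mem_Ioc.mp hm'.1
      exact Finset.mem_coe.mpr (Finset.mem_Icc.mpr ⟨Nat.div_le_div_right hm2.1.le,
        Nat.div_le_div_right hm2.2⟩)
    · have key : ∀ a b : ℕ, a ∈ (Ioc N (2 * N)).filter S → b ∈ (Ioc N (2 * N)).filter S →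
          a < b → a / (D + 1) ≠ b / (D + 1) := by
        intro a b ha hb hab heq
        obtain ⟨ha1, ha2⟩ := Finset.mem_filter.mp ha
        obtain ⟨hb1, hb2⟩ := Finset.mem_filter.mp hb
        rw [hS] at ha2 hb2
        obtain ⟨y₁, hy1, hym1, h1⟩ := ha2
        obtain ⟨y₂, hy2, hym2, h2⟩ := hb2
        have hg := hN₁ N hNa a b y₁ y₂ (Finset.mem_Ioc.mp ha1).1 hab hy1 hym1 hy2 hym2 h1 h2
        have h3 : a + (D + 1) ≤ b := by omega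
        have h4 : (a + (D + 1)) / (D + 1) ≤ b / (D + 1) := Nat.div_le_div_right h3
        have h5 : (a + (D + 1)) / (D + 1) = a / (D + 1) + 1 :=
          Nat.add_div_right a (Nat.succ_pos D)
        have h6 : a / (D + 1) = b / (D + 1) := heq
        rw [h5, h6] at h4
        exact absurd h4 (by omega)
      intro a ha b hb hab
      by_contra hne
      rcases Nat.lt_or_gt_of_ne hne with h | h
      · exact key a b ha hb h hab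
      · exact key b a hb ha h hab.symm
  have hε2 : 2 / ε < D := hD
  have hNR : 4 / ε < N := lt_of_lt_of_le hN₂ (by exact_mod_cast hNb)
  rw [div_lt_iff₀ hε] at hε2 hNR
  have hDp : (0 : ℝ) < (D : ℝ) + 1 := by positivity
  rw [Nat.card_Icc] at hcard
  have h5 : (((2 * N / (D + 1) : ℕ)) : ℝ) ≤ 2 * N / ((D : ℝ) + 1) := by
    have := @Nat.cast_div_le ℝ _ _ _ (2 * N) (D + 1)
    push_cast at this
    exact this
  have h6 : (N : ℝ) / ((D : ℝ) + 1) - 1 < ((N / (D + 1) : ℕ) : ℝ) := by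
    have h7 : N < (N / (D + 1) + 1) * (D + 1) := by
      have := Nat.lt_div_mul_add (a := N) (Nat.succ_pos D)
      nlinarith
    have h8 : (N : ℝ) < ((N / (D + 1) : ℕ) + 1) * ((D : ℝ) + 1) := by exact_mod_cast h7
    rw [sub_lt_iff_lt_add, div_lt_iff₀ hDp]
    exact h8
  have h9 : (((Ioc N (2 * N)).filter S).card : ℝ) + ((N / (D + 1) : ℕ) : ℝ) ≤
      ((2 * N / (D + 1) : ℕ) : ℝ) + 1 := by
    have : ((Ioc N (2 * N)).filter S).card + N / (D + 1) ≤ 2 * N / (D + 1) + 1 := by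
      have h10 : N / (D + 1) ≤ 2 * N / (D + 1) := Nat.div_le_div_right (by omega)
      omega
    exact_mod_cast this
  have h11 : 2 * (N : ℝ) / ((D : ℝ) + 1) = N / ((D : ℝ) + 1) + N / ((D : ℝ) + 1) := by ring
  have h12 : (N : ℝ) / ((D : ℝ) + 1) ≤ ε / 2 * N := by
    rw [div_le_iff₀ hDp]
    have hNp : (0 : ℝ) ≤ N := Nat.cast_nonneg N
    nlinarith
  linarith

end Pool.Agent.Y361.SF
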